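import Pool.Agent.X192.QH.Basic

/-!
# MP_64d585_al, Q1: extending `A`-invariant `(HA, φ)`-neutral subspaces

Let `φ` be a nonstandard involution of the quaternions.  For an invertible `φ`-hermitian matrix `H`
and an `(H, φ)`-skewsymmetric matrix `A`, every `A`-invariant `(HA, φ)`-neutral subspace is
contained in an `A`-invariant maximal `(HA, φ)`-nonnegative subspace and in an `A`-invariant maximal
`(HA, φ)`-nonpositive subspace.
-/

set_option autoImplicit false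

open Matrix Quaternion

namespace Pool.Agent.Results.MP_64d585_al.ExtendNeutral

/-- A nonstandard involution: a real-linear involutive antiautomorphism of the quaternions other
than the conjugation. -/
structure IsNonstandard (φ : ℍ[ℝ] →ₗ[ℝ] ℍ[ℝ]) : Prop where
  map_mul : ∀ x y, φ (x * y) = φ y * φ x
  invol : ∀ x, φ (φ x) = x
  ne_conj : ∃ x, φ x ≠ star x

/-- Right subspaces of the right quaternion vector space `ℍⁿ`. -/
abbrev Sub (n : ℕ) : Type := Submodule (ℍ[ℝ])ᵐᵒᵖ (Fin n → ℍ[ℝ])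

/-- `X_φ`: the transpose of `X` with `φ` applied to every entry. -/
noncomputable def phiT {n : ℕ} (φ : ℍ[ℝ] →ₗ[ℝ] ℍ[ℝ]) (X : Matrix (Fin n) (Fin n) ℍ[ℝ]) :
    Matrix (Fin n) (Fin n) ℍ[ℝ] :=
  fun i j => φ (X j i)

/-- `x_φ G y`. -/
noncomputable def form {n : ℕ} (φ : ℍ[ℝ] →ₗ[ℝ] ℍ[ℝ]) (G : Matrix (Fin n) (Fin n) ℍ[ℝ])
    (x y : Fin n → ℍ[ℝ]) : ℍ[ℝ] :=
  (fun i => φ (x i)) ⬝ᵥ (G *ᵥ y)

/-- `L` is `A`-invariant. -/
def Invariant {n : ℕ} (A : Matrix (Fin n) (Fin n) ℍ[ℝ]) (L : Sub n) : Prop :=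
  ∀ x ∈ L, A *ᵥ x ∈ L

/-- `L` is `(G, φ)`-neutral: `y_φ G x = 0` for all `x, y ∈ L`. -/
def Neutral {n : ℕ} (φ : ℍ[ℝ] →ₗ[ℝ] ℍ[ℝ]) (G : Matrix (Fin n) (Fin n) ℍ[ℝ]) (L : Sub n) : Prop :=
  ∀ x ∈ L, ∀ y ∈ L, form φ G y x = 0

/-- `L` is `(G, φ)`-nonnegative: for every `x ∈ L`, `β⁻¹ x_φ G x` is a real number `≥ 0`. -/
def Nonnegative {n : ℕ} (φ : ℍ[ℝ] →ₗ[ℝ] ℍ[ℝ]) (β : ℍ[ℝ]) (G : Matrix (Fin n) (Fin n) ℍ[ℝ])
    (L : Sub n) : Prop :=
  ∀ x ∈ L, ∃ r : ℝ, 0 ≤ r ∧ β⁻¹ * form φ G x x = (r : ℍ[ℝ])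

/-- `L` is `(G, φ)`-nonpositive: for every `x ∈ L`, `β⁻¹ x_φ G x` is a real number `≤ 0`. -/
def Nonpositive {n : ℕ} (φ : ℍ[ℝ] →ₗ[ℝ] ℍ[ℝ]) (β : ℍ[ℝ]) (G : Matrix (Fin n) (Fin n) ℍ[ℝ])
    (L : Sub n) : Prop :=
  ∀ x ∈ L, ∃ r : ℝ, r ≤ 0 ∧ β⁻¹ * form φ G x x = (r : ℍ[ℝ])

/-- `L` is a maximal subspace with the property `P`. -/
def IsMaximalSub {n : ℕ} (P : Sub n → Prop) (L : Sub n) : Prop :=
  P L ∧ ∀ M : Sub n, P M → L ≤ M → M = L

section Classification

variable {φ : ℍ[ℝ] →ₗ[ℝ] ℍ[ℝ]} {β : ℍ[ℝ]}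

theorem map_one (hφ : IsNonstandard φ) : φ 1 = 1 := by
  have h1 := hφ.map_mul 1 (φ 1)
  rw [hφ.invol, one_mul, hφ.invol] at h1
  exact h1.symm

theorem map_coe (hφ : IsNonstandard φ) (r : ℝ) : φ (r : ℍ[ℝ]) = (r : ℍ[ℝ]) := by
  have h : (r : ℍ[ℝ]) = r • (1 : ℍ[ℝ]) := by
    rw [← Quaternion.coe_one, ← Quaternion.mul_coe_eq_smul, ← Quaternion.coe_mul, one_mul]
  rw [h, map_smul, map_one hφ]

/-- a quaternion whose square is a nonpositive real number is pure -/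
theorem re_eq_zero_of_sq {y : ℍ[ℝ]} {r : ℝ} (hr : 0 ≤ r) (h : y * y = ((-r : ℝ) : ℍ[ℝ])) :
    y.re = 0 := by
  have h0 := congrArg (fun z : ℍ[ℝ] => z.re) h
  have h1 := congrArg (fun z : ℍ[ℝ] => z.imI) h
  have h2 := congrArg (fun z : ℍ[ℝ] => z.imJ) h
  have h3 := congrArg (fun z : ℍ[ℝ] => z.imK) h
  simp only [Quaternion.re_mul, Quaternion.imI_mul, Quaternion.imJ_mul, Quaternion.imK_mul,
    Quaternion.re_coe, Quaternion.imI_coe, Quaternion.imJ_coe, Quaternion.imK_coe] at h0 h1 h2 h3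
  by_contra hne
  have e1 : y.imI = 0 := by
    have : y.re * y.imI = 0 := by linarith
    rcases mul_eq_zero.mp this with h | h
    · exact absurd h hne
    · exact h
  have e2 : y.imJ = 0 := by
    have : y.re * y.imJ = 0 := by linarith
    rcases mul_eq_zero.mp this with h | h
    · exact absurd h hne
    · exact h
  have e3 : y.imK = 0 := by
    have : y.re * y.imK = 0 := by linarith
    rcases mul_eq_zero.mp this with h | h
    · exact absurd h hne
    · exact h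
  rw [e1, e2, e3] at h0
  have h4 : 0 < y.re * y.re := mul_self_pos.mpr hne
  linarith

theorem pure_sq {x : ℍ[ℝ]} (hx : x.re = 0) : x * x = ((-normSq x : ℝ) : ℍ[ℝ]) := by
  rw [Quaternion.normSq_def']
  ext
  · simp only [Quaternion.re_mul, Quaternion.re_coe, hx]; ring
  · simp only [Quaternion.imI_mul, Quaternion.imI_coe, hx]; ring
  · simp only [Quaternion.imJ_mul, Quaternion.imJ_coe, hx]; ring
  · simp only [Quaternion.imK_mul, Quaternion.imK_coe, hx]; ring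

theorem re_map (hφ : IsNonstandard φ) (x : ℍ[ℝ]) : (φ x).re = x.re := by
  -- the pure part
  have h1 : ∀ y : ℍ[ℝ], y.re = 0 → (φ y).re = 0 := by
    intro y hy
    apply re_eq_zero_of_sq (r := normSq y) normSq_nonneg
    rw [← hφ.map_mul, pure_sq hy, map_coe hφ]
  have h2 : x = (x.re : ℍ[ℝ]) + x.im := by simp
  have h3 : (φ x.im).re = 0 := h1 _ (by simp)
  conv_lhs => rw [h2]
  rw [map_add, map_coe hφ, Quaternion.re_add, Quaternion.re_coe, h3, add_zero]

theorem beta_re (hφ : IsNonstandard φ) (hβ : φ β = -β) : β.re = 0 := by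
  have h := re_map hφ β
  rw [hβ, Quaternion.re_neg] at h
  linarith

theorem beta_sq (hφ : IsNonstandard φ) (hβ : φ β = -β) (hn : ‖β‖ = 1) : β * β = -1 := by
  rw [pure_sq (beta_re hφ hβ), Quaternion.normSq_eq_norm_mul_self, hn]
  simp

/-- a quaternion commuting with the unit pure quaternion `β` is in `ℝ + ℝ β` -/
theorem eq_of_comm (hre : β.re = 0) (hn : normSq β = 1) {z : ℍ[ℝ]} (h : z * β = β * z) :
    ∃ s t : ℝ, z = (s : ℍ[ℝ]) + (t : ℍ[ℝ]) * β := by
  refine ⟨z.re, z.imI * β.imI + z.imJ * β.imJ + z.imK * β.imK, ?_⟩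
  have h1 := congrArg (fun z : ℍ[ℝ] => z.imI) h
  have h2 := congrArg (fun z : ℍ[ℝ] => z.imJ) h
  have h3 := congrArg (fun z : ℍ[ℝ] => z.imK) h
  simp only [Quaternion.imI_mul, Quaternion.imJ_mul, Quaternion.imK_mul, hre] at h1 h2 h3
  rw [Quaternion.normSq_def', hre] at hn
  ext
  · simp [hre]
  · simp only [Quaternion.imI_add, Quaternion.imI_coe, Quaternion.imI_mul, Quaternion.re_coe,
      Quaternion.imJ_coe, Quaternion.imK_coe, hre]
    linear_combination (-z.imI) * hn + (β.imJ / 2) * h3 - (β.imK / 2) * h2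
  · simp only [Quaternion.imJ_add, Quaternion.imJ_coe, Quaternion.imJ_mul, Quaternion.re_coe,
      Quaternion.imI_coe, Quaternion.imK_coe, hre]
    linear_combination (-z.imJ) * hn + (β.imK / 2) * h1 - (β.imI / 2) * h3
  · simp only [Quaternion.imK_add, Quaternion.imK_coe, Quaternion.imK_mul, Quaternion.re_coe,
      Quaternion.imI_coe, Quaternion.imJ_coe, hre]
    linear_combination (-z.imK) * hn + (β.imI / 2) * h2 - (β.imJ / 2) * h1

theorem star_beta (hre : β.re = 0) : star β = -β := by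
  ext
  · rw [Quaternion.re_star, Quaternion.re_neg, hre]; simp
  · rw [Quaternion.imI_star, Quaternion.imI_neg]
  · rw [Quaternion.imJ_star, Quaternion.imJ_neg]
  · rw [Quaternion.imK_star, Quaternion.imK_neg]

theorem re_eq_zero_of_anti (hre : β.re = 0) (hn : normSq β = 1) {b : ℍ[ℝ]} (h : b * β = -(β * b)) :
    b.re = 0 := by
  have h1 := congrArg (fun z : ℍ[ℝ] => z.imI) h
  have h2 := congrArg (fun z : ℍ[ℝ] => z.imJ) h
  have h3 := congrArg (fun z : ℍ[ℝ] => z.imK) h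
  simp only [Quaternion.imI_mul, Quaternion.imJ_mul, Quaternion.imK_mul, Quaternion.imI_neg,
    Quaternion.imJ_neg, Quaternion.imK_neg, hre] at h1 h2 h3
  rw [Quaternion.normSq_def', hre] at hn
  linear_combination (-b.re) * hn + (β.imI / 2) * h1 + (β.imJ / 2) * h2 + (β.imK / 2) * h3

/-- the value of `φ` on `ℝ + ℝ β` -/
theorem map_comb (hφ : IsNonstandard φ) (hβ : φ β = -β) (s t : ℝ) :
    φ ((s : ℍ[ℝ]) + (t : ℍ[ℝ]) * β) = (s : ℍ[ℝ]) - (t : ℍ[ℝ]) * β := by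
  rw [map_add, map_coe hφ, Quaternion.coe_mul_eq_smul, map_smul, hβ, smul_neg, sub_eq_add_neg]

theorem anti_mul {b : ℍ[ℝ]} (h : b * β = -(β * b)) (s t : ℝ) :
    b * ((s : ℍ[ℝ]) - (t : ℍ[ℝ]) * β) = ((s : ℍ[ℝ]) + (t : ℍ[ℝ]) * β) * b := by
  rw [mul_sub, add_mul, Quaternion.mul_coe_eq_smul, Quaternion.coe_mul_eq_smul,
    Quaternion.coe_mul_eq_smul, mul_smul_comm, h, smul_neg, sub_neg_eq_add, smul_mul_assoc]

theorem anti_cases (hφ : IsNonstandard φ) (hβ : φ β = -β) (hn : ‖β‖ = 1) {b : ℍ[ℝ]}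
    (h : b * β = -(β * b)) : φ b = b ∨ φ b = -b := by
  by_cases hb : b = 0
  · left; rw [hb, map_zero]
  have hn' : normSq β = 1 := by rw [Quaternion.normSq_eq_norm_mul_self, hn, one_mul]
  -- `φ b` anticommutes with `β`
  have h1 : φ b * β = -(β * φ b) := by
    have h2 := congrArg φ h
    rw [hφ.map_mul, map_neg, hφ.map_mul, hβ, neg_mul, mul_neg, neg_neg] at h2
    exact h2.symm
  -- `φ b = c b` with `c` commuting with `β`
  have h3 : (φ b * b⁻¹) * β = β * (φ b * b⁻¹) := by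
    have h4 : b⁻¹ * β = -(β * b⁻¹) := by
      have h5 : b * (b⁻¹ * β) * b = b * (-(β * b⁻¹)) * b := by
        rw [← mul_assoc, mul_inv_cancel₀ hb, one_mul, mul_neg, neg_mul, mul_assoc, mul_assoc,
          inv_mul_cancel₀ hb, mul_one, h, neg_neg]
      exact mul_left_cancel₀ hb (mul_right_cancel₀ hb h5)
    rw [mul_assoc, h4, mul_neg, ← mul_assoc, h1, neg_mul, neg_neg, mul_assoc]
  obtain ⟨s, t, hst⟩ := eq_of_comm (beta_re hφ hβ) hn' h3
  have h6 : φ b = ((s : ℍ[ℝ]) + (t : ℍ[ℝ]) * β) * b := by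
    rw [← hst, mul_assoc, inv_mul_cancel₀ hb, mul_one]
  have h7 := hφ.invol b
  rw [h6, hφ.map_mul, map_comb hφ hβ, h6, mul_assoc, anti_mul h, ← mul_assoc] at h7
  -- `c² = 1`
  have h8 : ((s : ℍ[ℝ]) + (t : ℍ[ℝ]) * β) * ((s : ℍ[ℝ]) + (t : ℍ[ℝ]) * β) = 1 := by
    apply mul_right_cancel₀ hb
    rw [h7, one_mul]
  rcases mul_self_eq_one_iff.mp h8 with h9 | h9
  · left; rw [h6, h9, one_mul]
  · right; rw [h6, h9, neg_mul, one_mul]

theorem classification (hφ : IsNonstandard φ) (hβ : φ β = -β) (hn : ‖β‖ = 1) (x : ℍ[ℝ]) :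
    φ x = -(β * star x * β) := by
  have hre := beta_re hφ hβ
  have hsq := beta_sq hφ hβ hn
  have hn' : normSq β = 1 := by rw [Quaternion.normSq_eq_norm_mul_self, hn, one_mul]
  -- elements commuting with `β`
  have hcomm : ∀ a : ℍ[ℝ], a * β = β * a → φ a = star a ∧ φ a = -(β * star a * β) := by
    intro a ha
    obtain ⟨s, t, hst⟩ := eq_of_comm hre hn' ha
    have h1 : star a = (s : ℍ[ℝ]) - (t : ℍ[ℝ]) * β := by
      rw [hst, star_add, star_mul, Quaternion.star_coe, Quaternion.star_coe, star_beta hre,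
        Quaternion.mul_coe_eq_smul, Quaternion.coe_mul_eq_smul, smul_neg, sub_eq_add_neg]
    have h2 : φ a = (s : ℍ[ℝ]) - (t : ℍ[ℝ]) * β := by
      rw [hst]
      exact map_comb hφ hβ s t
    refine ⟨by rw [h1, h2], ?_⟩
    rw [h1, h2, Quaternion.coe_mul_eq_smul, mul_sub, sub_mul, mul_smul_comm, hsq,
      Quaternion.mul_coe_eq_smul, smul_mul_assoc, hsq, smul_mul_assoc, neg_mul, one_mul]
    have h3 : (s : ℍ[ℝ]) = s • (1 : ℍ[ℝ]) := by
      rw [← Quaternion.coe_one, ← Quaternion.mul_coe_eq_smul, ← Quaternion.coe_mul, one_mul]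
    rw [h3]
    module
  -- elements anticommuting with `β`
  have hanti' : ∀ b : ℍ[ℝ], b * β = -(β * b) → star b = -b := by
    intro b hb
    exact star_beta (re_eq_zero_of_anti hre hn' hb)
  have hdec : ∀ x : ℍ[ℝ], ∃ a b : ℍ[ℝ], x = a + b ∧ a * β = β * a ∧ b * β = -(β * b) := by
    intro x
    refine ⟨(1 / 2 : ℝ) • (x - β * x * β), (1 / 2 : ℝ) • (x + β * x * β), ?_, ?_, ?_⟩
    · module
    · rw [smul_mul_assoc, mul_smul_comm, sub_mul, mul_sub, mul_assoc (β * x), hsq, ← mul_assoc β,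
        ← mul_assoc β, hsq]
      congr 1
      noncomm_ring
    · rw [smul_mul_assoc, mul_smul_comm, add_mul, mul_add, mul_assoc (β * x), hsq, ← mul_assoc β,
        ← mul_assoc β, hsq, ← smul_neg]
      congr 1
      noncomm_ring
  have hanti : ∀ b : ℍ[ℝ], b * β = -(β * b) → φ b = b := by
    by_contra hcon
    push Not at hcon
    obtain ⟨b₀, hb₀, hne⟩ := hcon
    have hb₀0 : b₀ ≠ 0 := by
      rintro rfl
      exact hne (map_zero φ)
    have h1 : φ b₀ = -b₀ := (anti_cases hφ hβ hn hb₀).resolve_left hne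
    -- then `φ` is the conjugation
    obtain ⟨y, hy⟩ := hφ.ne_conj
    apply hy
    obtain ⟨a, b, rfl, ha, hb⟩ := hdec y
    rw [map_add, star_add, (hcomm a ha).1, hanti' b hb]
    congr 1
    -- `b = z b₀` with `z` commuting with `β`
    have h4 : b₀⁻¹ * β = -(β * b₀⁻¹) := by
      have h5 : b₀ * (b₀⁻¹ * β) * b₀ = b₀ * (-(β * b₀⁻¹)) * b₀ := by
        rw [← mul_assoc, mul_inv_cancel₀ hb₀0, one_mul, mul_neg, neg_mul, mul_assoc, mul_assoc,
          inv_mul_cancel₀ hb₀0, mul_one, hb₀, neg_neg]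
      exact mul_left_cancel₀ hb₀0 (mul_right_cancel₀ hb₀0 h5)
    have h3 : (b * b₀⁻¹) * β = β * (b * b₀⁻¹) := by
      rw [mul_assoc, h4, mul_neg, ← mul_assoc, hb, neg_mul, neg_neg, mul_assoc]
    obtain ⟨s, t, hst⟩ := eq_of_comm hre hn' h3
    have h6 : b = ((s : ℍ[ℝ]) + (t : ℍ[ℝ]) * β) * b₀ := by
      rw [← hst, mul_assoc, inv_mul_cancel₀ hb₀0, mul_one]
    rw [h6, hφ.map_mul, map_comb hφ hβ, h1, neg_mul, anti_mul hb₀]
  obtain ⟨a, b, rfl, ha, hb⟩ := hdec x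
  rw [map_add, star_add, mul_add, add_mul, neg_add, ← (hcomm a ha).2, hanti b hb, hanti' b hb]
  congr 1
  rw [mul_neg, neg_mul, neg_neg]
  have : β * b = -(b * β) := by rw [hb, neg_neg]
  rw [this, neg_mul, mul_assoc, hsq, mul_neg, mul_one, neg_neg]

end Classification

section Reduction

variable {φ : ℍ[ℝ] →ₗ[ℝ] ℍ[ℝ]} {β : ℍ[ℝ]} {n : ℕ}

/-- the hermitian matrix `-β G` -/
noncomputable def herm (β : ℍ[ℝ]) (G : Matrix (Fin n) (Fin n) ℍ[ℝ]) :
    Matrix (Fin n) (Fin n) ℍ[ℝ] := fun i j => -(β * G i j)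

theorem beta_inv (hφ : IsNonstandard φ) (hβ : φ β = -β) (hn : ‖β‖ = 1) : β⁻¹ = -β := by
  have hsq := beta_sq hφ hβ hn
  have h0 : β ≠ 0 := by
    rintro rfl
    rw [norm_zero] at hn
    exact zero_ne_one hn
  apply mul_left_cancel₀ h0
  rw [mul_inv_cancel₀ h0, mul_neg, hsq, neg_neg]

theorem form_eq (hφ : IsNonstandard φ) (hβ : φ β = -β) (hn : ‖β‖ = 1)
    (G : Matrix (Fin n) (Fin n) ℍ[ℝ]) (x y : Fin n → ℍ[ℝ]) :
    β⁻¹ * form φ G x y = Pool.Agent.X192.QH.g (herm β G) x y := by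
  have hsq := beta_sq hφ hβ hn
  rw [beta_inv hφ hβ hn]
  simp only [form, Pool.Agent.X192.QH.g, dotProduct, Matrix.mulVec, Finset.mul_sum, herm,
    classification hφ hβ hn, Pi.star_apply]
  refine Finset.sum_congr rfl fun i _ => Finset.sum_congr rfl fun j _ => ?_
  have h1 : -β * (-(β * star (x i) * β) * (G i j * y j)) =
      (β * β) * (star (x i) * β * (G i j * y j)) := by noncomm_ring
  rw [h1, hsq]
  noncomm_ring

theorem star_eq (hφ : IsNonstandard φ) (hβ : φ β = -β) (hn : ‖β‖ = 1) (x : ℍ[ℝ]) :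
    star x = -(β * φ x * β) := by
  have hsq := beta_sq hφ hβ hn
  rw [classification hφ hβ hn]
  have h1 : -(β * -(β * star x * β) * β) = (β * β) * star x * (β * β) := by noncomm_ring
  rw [h1, hsq]
  noncomm_ring

theorem phiT_mul (hφ : IsNonstandard φ) (X Y : Matrix (Fin n) (Fin n) ℍ[ℝ]) :
    phiT φ (X * Y) = phiT φ Y * phiT φ X := by
  ext1 i j
  simp only [phiT, Matrix.mul_apply, map_sum, hφ.map_mul]

theorem herm_hermitian (hφ : IsNonstandard φ) (hβ : φ β = -β) (hn : ‖β‖ = 1)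
    {G : Matrix (Fin n) (Fin n) ℍ[ℝ]} (hG : phiT φ G = -G) : (herm β G)ᴴ = herm β G := by
  have hsq := beta_sq hφ hβ hn
  ext1 i j
  have h1 : φ (G j i) = - G i j := congrFun (congrFun hG i) j
  simp only [Matrix.conjTranspose_apply, herm]
  rw [star_neg, star_mul, star_beta (beta_re hφ hβ), star_eq hφ hβ hn (G j i), h1]
  have h2 : -(-(β * -G i j * β) * -β) = β * G i j * (β * β) := by noncomm_ring
  rw [h2, hsq]
  noncomm_ring

theorem herm_mul (G A : Matrix (Fin n) (Fin n) ℍ[ℝ]) : herm β G * A = herm β (G * A) := by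
  ext1 i j
  simp only [herm, Matrix.mul_apply, Finset.mul_sum, neg_mul, Finset.sum_neg_distrib, mul_assoc]

theorem conjTranspose_mul_herm (hφ : IsNonstandard φ) (hβ : φ β = -β) (hn : ‖β‖ = 1)
    (A G : Matrix (Fin n) (Fin n) ℍ[ℝ]) : Aᴴ * herm β G = herm β (phiT φ A * G) := by
  have hsq := beta_sq hφ hβ hn
  ext1 i j
  simp only [herm, Matrix.mul_apply, Matrix.conjTranspose_apply, Finset.mul_sum,
    ← Finset.sum_neg_distrib, phiT]
  refine Finset.sum_congr rfl fun k _ => ?_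
  rw [star_eq hφ hβ hn (A k i)]
  have h2 : -(β * φ (A k i) * β) * -(β * G k j) = β * φ (A k i) * (β * β) * G k j := by
    noncomm_ring
  rw [h2, hsq]
  noncomm_ring

theorem herm_neg (G : Matrix (Fin n) (Fin n) ℍ[ℝ]) : herm β (-G) = - herm β G := by
  ext1 i j
  simp [herm]

end Reduction

open Pool.Agent.X192.QH in
/-- **Q1, affirmative answer.** Let `φ` be a nonstandard involution of the quaternions,
`φ(β) = -β`, `|β| = 1`. Let `H` be an invertible `φ`-hermitian quaternion matrix and `A` an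
`(H, φ)`-skewsymmetric matrix. Every `A`-invariant `(HA, φ)`-neutral subspace `N` is contained in an
`A`-invariant maximal `(HA, φ)`-nonnegative subspace and in an `A`-invariant maximal
`(HA, φ)`-nonpositive subspace. -/
theorem result (φ : ℍ[ℝ] →ₗ[ℝ] ℍ[ℝ]) (hφ : IsNonstandard φ) (β : ℍ[ℝ]) (hβ : φ β = -β)
    (hn : ‖β‖ = 1) (n : ℕ) (H A : Matrix (Fin n) (Fin n) ℍ[ℝ]) (_hH : IsUnit H)
    (hH' : phiT φ H = H) (hA : H * A = -(phiT φ A * H)) (N : Sub n) (hNi : Invariant A N)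
    (hN : Neutral φ (H * A) N) :
    (∃ L : Sub n, N ≤ L ∧ Invariant A L ∧ IsMaximalSub (Nonnegative φ β (H * A)) L) ∧
    (∃ L : Sub n, N ≤ L ∧ Invariant A L ∧ IsMaximalSub (Nonpositive φ β (H * A)) L) := by
  have hβ0 : β ≠ 0 := by
    rintro rfl
    rw [norm_zero] at hn
    exact zero_ne_one hn
  have hphi : phiT φ (H * A) = -(H * A) := by
    rw [phiT_mul hφ, hH', hA, neg_neg]
  have hG := herm_hermitian hφ hβ hn hphi
  have hGA : herm β (H * A) * A = -(Aᴴ * herm β (H * A)) := by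
    rw [herm_mul, conjTranspose_mul_herm hφ hβ hn, ← herm_neg]
    congr 1
    conv_lhs => rw [hA]
    rw [Matrix.neg_mul, Matrix.mul_assoc]
  have hG' : (-(herm β (H * A)))ᴴ = -(herm β (H * A)) := by rw [Matrix.conjTranspose_neg, hG]
  have hGA' : (-(herm β (H * A))) * A = -(Aᴴ * (-(herm β (H * A)))) := by
    rw [Matrix.neg_mul, Matrix.mul_neg, hGA]
  have hN' : Pool.Agent.X192.QH.Neutral (herm β (H * A)) N := by
    intro x hx y hy
    rw [← form_eq hφ hβ hn, hN y hy x hx, mul_zero]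
  have hnn : ∀ L : Sub n, Nonnegative φ β (H * A) L ↔ Nonneg (herm β (H * A)) L := by
    intro L
    constructor
    · intro h x hx
      obtain ⟨r, hr, h2⟩ := h x hx
      rw [← form_eq hφ hβ hn, h2, Quaternion.re_coe]
      exact hr
    · intro h x hx
      refine ⟨_, h x hx, ?_⟩
      rw [form_eq hφ hβ hn]
      exact g_self_eq hG x
  have hnp : ∀ L : Sub n, Nonpositive φ β (H * A) L ↔ Nonneg (-(herm β (H * A))) L := by
    intro L
    constructor
    · intro h x hx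
      obtain ⟨r, hr, h2⟩ := h x hx
      rw [g_neg, Quaternion.re_neg, ← form_eq hφ hβ hn, h2, Quaternion.re_coe]
      linarith
    · intro h x hx
      have h1 := h x hx
      rw [g_neg, Quaternion.re_neg] at h1
      refine ⟨(g (herm β (H * A)) x x).re, by linarith, ?_⟩
      rw [form_eq hφ hβ hn]
      exact g_self_eq hG x
  refine ⟨?_, ?_⟩
  · obtain ⟨L, h1, h2, h3, h4⟩ := main hG hGA (N₀ := N) hNi hN'
    refine ⟨L, h1, h2, (hnn L).mpr h3, fun M hM hLM => ?_⟩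
    exact h4 M ((hnn M).mp hM) hLM
  · obtain ⟨L, h1, h2, h3, h4⟩ := main hG' hGA' (N₀ := N) hNi hN'.neg
    refine ⟨L, h1, h2, (hnp L).mpr h3, fun M hM hLM => ?_⟩
    exact h4 M ((hnp M).mp hM) hLM

end Pool.Agent.Results.MP_64d585_al.ExtendNeutral
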